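import Mathlib

set_option autoImplicit false
set_option maxHeartbeats 400000
set_option linter.unusedSectionVars false

namespace Pool.Agent.H.MP_646617_gt

open Set Filter Topology
open scoped Manifold ContDiff

variable (F : Type*) [NormedAddCommGroup F] [NormedSpace ℝ F] [CompleteSpace F]
  {G : Type*} [Group G] [TopologicalSpace G] [ChartedSpace F G] [LieGroup 𝓘(ℝ, F) ∞ G]

noncomputable def CC (a : G) (g : G) (v : F) : F :=
  chartAt F (1 : G) (a * (g * (chartAt F (1 : G)).symm v * g⁻¹))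

noncomputable def AA (g : G) : F →L[ℝ] F := fderiv ℝ (CC F 1 g) (chartAt F (1 : G) 1)

lemma so : (chartAt F (1 : G)).symm (chartAt F (1 : G) 1) = 1 :=
  (chartAt F (1 : G)).left_inv (mem_chart_source F 1)

lemma sm1 : ContMDiffAt 𝓘(ℝ, F) 𝓘(ℝ, F) ∞ (chartAt F (1 : G)) 1 :=
  contMDiffOn_chart.contMDiffAt (chart_source_mem_nhds F 1)

lemma sm2 : ContMDiffAt 𝓘(ℝ, F) 𝓘(ℝ, F) ∞ (chartAt F (1 : G)).symm (chartAt F (1 : G) 1) :=
  contMDiffOn_chart_symm.contMDiffAt (chart_target_mem_nhds F 1)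

lemma sm3 {P : Type*} [NormedAddCommGroup P] [NormedSpace ℝ P] {a b : P → F} {p : P}
    (ha : ContDiffAt ℝ ∞ a p) (hb : ContDiffAt ℝ ∞ b p) (ea : a p = chartAt F (1 : G) 1)
    (eb : b p = chartAt F (1 : G) 1) (g : G) :
    ContDiffAt ℝ ∞ (fun x => CC F ((chartAt F (1 : G)).symm (a x)) g (b x)) p :=
  ((sm1 F).comp_of_eq (((sm2 F).comp_of_eq ha.contMDiffAt ea).mul ((contMDiffAt_const.mul
    ((sm2 F).comp_of_eq hb.contMDiffAt eb)).mul contMDiffAt_const)) (by simp [ea, eb])).contDiffAt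

lemma hC (g : G) : HasFDerivAt (CC F 1 g) (AA F g) (chartAt F (1 : G) 1) := by
  have := sm3 F (a := fun _ : F => chartAt F (1 : G) 1) contDiffAt_const contDiffAt_id rfl rfl g
  simp only [so] at this
  exact (this.differentiableAt (by simp)).hasFDerivAt

lemma A1 : AA F (1 : G) = .id ℝ F := by
  refine (hC F 1).unique ((hasFDerivAt_id _).congr_of_eventuallyEq ?_)
  filter_upwards [chart_target_mem_nhds F (1 : G)] with v hv
  simp [CC, (chartAt F (1 : G)).right_inv hv]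

lemma Am (g h : G) : AA F (g * h) = AA F g ∘L AA F h := by
  have := topologicalGroup_of_lieGroup 𝓘(ℝ, F) ∞ (G := G)
  have e : CC F 1 h (chartAt F (1 : G) 1) = chartAt F (1 : G) 1 := by simp [CC]
  refine (hC F _).unique (((e ▸ hC F g :).comp _ (hC F h)).congr_of_eventuallyEq ?_)
  have : ContinuousAt (fun v => h * (chartAt F (1 : G)).symm v * h⁻¹) (chartAt F (1 : G) 1) :=
    (continuousAt_const.mul (sm2 F).continuousAt).mul continuousAt_const
  filter_upwards [this.preimage_mem_nhds (by simpa [so] using chart_source_mem_nhds F (1 : G))]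
    with v hv
  simp only [CC, Function.comp, one_mul, (chartAt F (1 : G)).left_inv hv]
  group

include F in
lemma rigid {ι : Type*} [Fintype ι] [Nonempty ι] (μ : ι → ι → ι)
    (hμ : ∀ d, Function.Bijective fun i => μ i d) (x : ι → G) (hx : ∀ i j, x (μ i j) = x i * x j) :
    ∀ᶠ y in 𝓝 x, (∀ i j, y (μ i j) = y i * y j) → ∃ z : G, ∀ i, y i = z * x i * z⁻¹ := by
  have := topologicalGroup_of_lieGroup 𝓘(ℝ, F) ∞ (G := G)
  set φ := chartAt F (1 : G) with hφ
  set o := φ 1 with ho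
  have n0 : (Fintype.card ι : ℝ) ≠ 0 := by positivity
  let Ψ : (ι → F) × F → F := fun p => (Fintype.card ι : ℝ)⁻¹ •
    ∑ i, AA F (x i)⁻¹ (CC F (φ.symm (p.1 i)) (x i) p.2 - o)
  have h1 : ContDiffAt ℝ ∞ Ψ (fun _ => o, o) := (ContDiffAt.sum fun i _ =>
    (AA F (x i)⁻¹).contDiff.contDiffAt.comp _ ((sm3 F (a := fun p : (ι → F) × F => p.1 i)
      (by fun_prop) contDiffAt_snd rfl rfl _).sub contDiffAt_const)).const_smul _
  have h2 := h1.hasStrictFDerivAt (by simp)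
  have h3 : (fderiv ℝ Ψ (fun _ => o, o) ∘L .inr ℝ _ _).IsInvertible := by
    refine ⟨.refl ℝ F, HasFDerivAt.unique ?_ (h2.hasFDerivAt.comp o (hasFDerivAt_prodMk_right _ _))⟩
    have := (HasFDerivAt.fun_sum (u := Finset.univ) fun i _ => (AA F (x i)⁻¹).hasFDerivAt.comp o
      ((hC F (x i)).sub_const o)).const_smul (Fintype.card ι : ℝ)⁻¹
    simp only [← Am, inv_mul_cancel, A1, Finset.sum_const, Finset.card_univ,
      ← Nat.cast_smul_eq_nsmul ℝ, inv_smul_smul₀ n0] at this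
    refine this.congr_of_eventuallyEq (.of_forall fun v => ?_)
    simp [Ψ, hφ, ho]
  have Ψ0 : Ψ (fun _ => o, o) = 0 := by simp [Ψ, CC, hφ, ho]
  obtain ⟨ψ, t1, t2, t3⟩ : ∃ ψ : (ι → F) → F, Tendsto ψ (𝓝 fun _ => o) (𝓝 o) ∧
      (∀ᶠ w in 𝓝 (fun _ => o), Ψ (w, ψ w) = 0) ∧
      ∀ᶠ p in 𝓝 (fun _ => o, o), Ψ p = 0 ↔ ψ p.1 = p.2 :=
    ⟨_, h2.tendsto_implicitFunctionOfProdDomain h3,
      Ψ0 ▸ h2.eventually_apply_implicitFunctionOfProdDomain h3,
      Ψ0 ▸ h2.eventually_apply_eq_iff_implicitFunctionOfProdDomain h3⟩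
  let w : (ι → G) → ι → F := fun y i => φ (y i * (x i)⁻¹)
  have c1 : ∀ i, Tendsto (fun y : ι → G => y i * (x i)⁻¹) (𝓝 x) (𝓝 1) := fun i => by
    simpa using ((continuous_apply i).tendsto x).mul_const (x i)⁻¹
  have tw : Tendsto w (𝓝 x) (𝓝 fun _ => o) :=
    tendsto_pi_nhds.2 fun i => (sm1 F).continuousAt.tendsto.comp (c1 i)
  have tv := t1.comp tw
  have tz : Tendsto (fun y => φ.symm (ψ (w y))) (𝓝 x) (𝓝 1) := by
    have := (sm2 F).continuousAt.tendsto.comp tv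
    rwa [so] at this
  have td : ∀ d, Tendsto (fun y => y d * φ.symm (ψ (w y)) * (x d)⁻¹) (𝓝 x) (𝓝 1) := fun d => by
    simpa using (((continuous_apply d).tendsto x).mul tz).mul_const (x d)⁻¹
  have S := chart_source_mem_nhds F (1 : G)
  filter_upwards [eventually_all.2 fun i => (c1 i).eventually S,
    eventually_all.2 fun d => (td d).eventually S, tw.eventually t2,
    eventually_all.2 fun d => (tw.prodMk_nhds ((sm1 F).continuousAt.tendsto.comp (td d))).eventually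
      t3] with y e1 e2 e4 e5 hy
  refine ⟨φ.symm (ψ (w y)), fun d => ?_⟩
  have a : ∀ i, φ.symm (w y i) = y i * (x i)⁻¹ := fun i => φ.left_inv (e1 i)
  have b := φ.left_inv (e2 d)
  have := (e5 d).1 (by
    simp only [Ψ, smul_eq_zero, inv_eq_zero, n0, false_or, CC, a, Function.comp, ← hφ] at e4 ⊢
    rw [b, ← map_zero (AA F (x d)), ← e4, map_sum, ← (hμ d).sum_comp (fun i => AA F (x d)
      (AA F (x i)⁻¹ (φ (y i * (x i)⁻¹ * (x i * φ.symm (ψ (w y)) * (x i)⁻¹)) - o)))]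
    refine Finset.sum_congr rfl fun i _ => ?_
    rw [← ContinuousLinearMap.comp_apply, ← Am, hx, hy]
    congr 3 <;> group)
  simp only [Function.comp, ← hφ] at this
  rw [← this] at b
  rw [eq_mul_inv_iff_mul_eq, ← mul_inv_eq_iff_eq_mul, ← b]

include F in
lemma fin_classes [CompactSpace G] [T2Space G] {ι : Type*} [Fintype ι] [Nonempty ι] (μ : ι → ι → ι)
    (hμ : ∀ d, Function.Bijective fun i => μ i d) : ∃ s : Set (ι → G), s.Finite ∧
      ∀ y : ι → G, (∀ i j, y (μ i j) = y i * y j) → ∃ x ∈ s, ∃ z : G, ∀ i, y i = z * x i * z⁻¹ := by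
  have := topologicalGroup_of_lieGroup 𝓘(ℝ, F) ∞ (G := G)
  have c : IsCompact {y : ι → G | ∀ i j, y (μ i j) = y i * y j} := IsClosed.isCompact (by
    simp only [setOf_forall]
    exact isClosed_iInter fun i => isClosed_iInter fun j => isClosed_eq (by fun_prop) (by fun_prop))
  obtain ⟨t, ht⟩ := c.elim_nhds_subcover' _ fun x hx => rigid F μ hμ x hx
  refine ⟨_, (t.finite_toSet.image Subtype.val), fun y hy => ?_⟩
  obtain ⟨x, hx, h⟩ := mem_iUnion₂.1 (ht hy)
  exact ⟨x, ⟨x, hx, rfl⟩, h hy⟩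

include F in
/-- Finitely many conjugacy classes of finite subgroups of bounded order. -/
lemma fin_sub [CompactSpace G] [T2Space G] (q : ℕ) : ∃ s : Set (Set G), s.Finite ∧
    ∀ Γ : Subgroup G, Finite Γ → Nat.card Γ ≤ q → ∃ S ∈ s, ∃ z : G,
      (Γ : Set G) = (fun g => z * g * z⁻¹) '' S := by
  choose s s1 s2 using fun (n : ℕ) (μ : {μ : Fin (n + 1) → Fin (n + 1) → Fin (n + 1) //
    ∀ d, Function.Bijective fun i => μ i d}) => fin_classes F (G := G) μ.1 μ.2
  refine ⟨⋃ n ∈ Iic q, ⋃ μ, range '' s n μ, (finite_Iic q).biUnion fun n _ =>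
    finite_iUnion fun μ => (s1 n μ).image _, fun Γ _ hq => ?_⟩
  obtain ⟨n, hn⟩ := Nat.exists_eq_succ_of_ne_zero (Nat.card_pos (α := Γ)).ne'
  let e : Γ ≃ Fin (n + 1) := Finite.equivFinOfCardEq hn
  obtain ⟨x, hx, z, hz⟩ := s2 n ⟨fun i j => e (e.symm i * e.symm j), fun d =>
    (e.symm.trans ((Equiv.mulRight (e.symm d)).trans e)).bijective⟩ (fun i => e.symm i) (by simp)
  refine ⟨range x, mem_iUnion₂.2 ⟨n, by simp; omega, mem_iUnion.2 ⟨_, x, hx, rfl⟩⟩, z, ?_⟩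
  ext g
  constructor
  · exact fun h => ⟨_, ⟨e ⟨g, h⟩, rfl⟩, by simpa using (hz (e ⟨g, h⟩)).symm⟩
  · rintro ⟨_, ⟨i, rfl⟩, rfl⟩
    simp only [← hz i]
    exact (e.symm i).2

end Pool.Agent.H.MP_646617_gt
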